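import Pool.Agent.W313.HB.Stm
import Pool.Agent.W313.BMX.Alg
import Pool.Agent.W335.BMX.Odd

/-!
# Bilinearity of the Hilbert symbol at an odd prime
-/

set_option autoImplicit false

namespace Pool.Agent.W215.HB

open Pool.Agent.W313.BMX Pool.Agent.W313.HB

variable {p : ℕ} [hp : Fact p.Prime]

lemma leg_cases {m : ℤ} (hm : ¬ (p : ℤ) ∣ m) : legendreSym p m = 1 ∨ legendreSym p m = -1 :=
  legendreSym.eq_one_or_neg_one p (by rwa [Ne, ZMod.intCast_zmod_eq_zero_iff_dvd])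

lemma leg_pow {m : ℤ} (hm : ¬ (p : ℤ) ∣ m) (t k : ℕ) :
    legendreSym p m ^ (t + 2 * k) = legendreSym p m ^ t := by
  rw [pow_add, pow_mul]
  rcases leg_cases hm with h | h <;> rw [h] <;> simp

/-- the sign -/
noncomputable def sg (p : ℕ) [Fact p.Prime] (t : ℕ) (m : ℤ) (s : ℕ) (e : ℤ) : ℤ :=
  legendreSym p (-1) ^ (t * s) * legendreSym p e ^ t * legendreSym p m ^ s

lemma p_ne : ((p : ℤ) : ℚ_[p]) ≠ 0 := by
  exact_mod_cast hp.out.ne_zero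

lemma neg_one_nd : ¬ (p : ℤ) ∣ (-1) := by
  intro h
  have h1 : (p : ℤ) ∣ 1 := (dvd_neg.mp h)
  exact hp.out.one_lt.ne' (by exact_mod_cast Int.eq_one_of_dvd_one (by positivity) h1)

lemma case_small (hp2 : p ≠ 2) {m e : ℤ} (hm : ¬ (p : ℤ) ∣ m) (he : ¬ (p : ℤ) ∣ e) (t s : ℕ)
    (ht : t ≤ 1) (hs : s ≤ 1) :
    Splits (((p : ℤ) ^ t * m : ℤ) : ℚ_[p]) (((p : ℤ) ^ s * e : ℤ) : ℚ_[p]) ↔ sg p t m s e = 1 := by
  unfold sg
  interval_cases t <;> interval_cases s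
  · simp only [pow_zero, one_mul, mul_zero]
    have := Pool.Agent.W335.BMX.odd2 p hp2 m e hm he
    simp [this]
  · simp only [pow_zero, one_mul, mul_one, pow_one, zero_mul]
    rw [splits_comm]
    exact Pool.Agent.W335.BMX.odd3 p hp2 e m he hm
  · simp only [pow_zero, one_mul, mul_one, pow_one, mul_zero]
    exact Pool.Agent.W335.BMX.odd3 p hp2 m e hm he
  · simp only [mul_one, pow_one]
    have hpe : (((p : ℤ) * e : ℤ) : ℚ_[p]) ≠ 0 := by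
      have h0 : e ≠ 0 := by rintro rfl; exact he (dvd_zero _)
      have h1 : (p : ℤ) ≠ 0 := by exact_mod_cast hp.out.ne_zero
      exact_mod_cast mul_ne_zero h1 h0
    rw [← splits_neg_mul hpe]
    have h2 : -(((p : ℤ) * m : ℤ) : ℚ_[p]) * (((p : ℤ) * e : ℤ) : ℚ_[p]) =
        ((-(m * e) : ℤ) : ℚ_[p]) * ((p : ℤ) : ℚ_[p]) ^ 2 := by push_cast; ring
    rw [h2, splits_mul_sq p_ne, splits_comm]
    have hme : ¬ (p : ℤ) ∣ -(m * e) := by
      rw [dvd_neg]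
      intro h
      rcases (Nat.prime_iff_prime_int.mp hp.out).dvd_or_dvd h with h | h
      · exact hm h
      · exact he h
    have h3 := Pool.Agent.W335.BMX.odd3 p hp2 e (-(m * e)) he hme
    rw [h3, show -(m * e) = (-1) * (m * e) by ring, legendreSym.mul, legendreSym.mul]
    rw [show legendreSym p (-1) * (legendreSym p m * legendreSym p e) =
      legendreSym p (-1) * legendreSym p e * legendreSym p m by ring]

lemma case_gen (hp2 : p ≠ 2) {m e : ℤ} (hm : ¬ (p : ℤ) ∣ m) (he : ¬ (p : ℤ) ∣ e) (t s : ℕ) :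
    Splits (((p : ℤ) ^ t * m : ℤ) : ℚ_[p]) (((p : ℤ) ^ s * e : ℤ) : ℚ_[p]) ↔ sg p t m s e = 1 := by
  obtain ⟨t', t0, ht0, rfl⟩ : ∃ t' t0, t0 ≤ 1 ∧ t = t0 + 2 * t' :=
    ⟨t / 2, t % 2, by omega, by omega⟩
  obtain ⟨s', s0, hs0, rfl⟩ : ∃ s' s0, s0 ≤ 1 ∧ s = s0 + 2 * s' :=
    ⟨s / 2, s % 2, by omega, by omega⟩
  have h1 : sg p (t0 + 2 * t') m (s0 + 2 * s') e = sg p t0 m s0 e := by
    unfold sg
    rw [leg_pow he, leg_pow hm, show (t0 + 2 * t') * (s0 + 2 * s') =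
      t0 * s0 + 2 * (t0 * s' + t' * s0 + 2 * t' * s') by ring, leg_pow neg_one_nd]
  have h2 : (((p : ℤ) ^ (t0 + 2 * t') * m : ℤ) : ℚ_[p]) =
      (((p : ℤ) ^ t0 * m : ℤ) : ℚ_[p]) * (((p : ℤ) : ℚ_[p]) ^ t') ^ 2 := by
    push_cast; ring
  have h3 : (((p : ℤ) ^ (s0 + 2 * s') * e : ℤ) : ℚ_[p]) =
      (((p : ℤ) ^ s0 * e : ℤ) : ℚ_[p]) * (((p : ℤ) : ℚ_[p]) ^ s') ^ 2 := by
    push_cast; ring
  rw [h1, h2, h3, splits_mul_sq (pow_ne_zero _ p_ne), splits_comm,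
    splits_mul_sq (pow_ne_zero _ p_ne), splits_comm, case_small hp2 hm he t0 s0 ht0 hs0]

lemma rep {a : ℤ} (ha : a ≠ 0) : ∃ (t : ℕ) (m : ℤ), ¬ (p : ℤ) ∣ m ∧ a = (p : ℤ) ^ t * m := by
  have hf : FiniteMultiplicity (p : ℤ) a := by
    rw [Int.finiteMultiplicity_iff]
    refine ⟨?_, ha⟩
    rw [Int.natAbs_natCast]
    exact hp.out.ne_one
  obtain ⟨m, hm, hm2⟩ := hf.exists_eq_pow_mul_and_not_dvd
  exact ⟨_, m, hm2, hm⟩

lemma sg_pm {m e : ℤ} (hm : ¬ (p : ℤ) ∣ m) (he : ¬ (p : ℤ) ∣ e) (t s : ℕ) :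
    sg p t m s e = 1 ∨ sg p t m s e = -1 := by
  have h : ∀ x : ℤ, x = 1 ∨ x = -1 → ∀ n : ℕ, x ^ n = 1 ∨ x ^ n = -1 := by
    intro x hx n
    rcases hx with rfl | rfl
    · left; simp
    · exact neg_one_pow_eq_or ℤ n
  have h2 : ∀ x y : ℤ, x = 1 ∨ x = -1 → y = 1 ∨ y = -1 → x * y = 1 ∨ x * y = -1 := by
    rintro x y (rfl | rfl) (rfl | rfl) <;> simp
  exact h2 _ _ (h2 _ _ (h _ (leg_cases neg_one_nd) _) (h _ (leg_cases he) _)) (h _ (leg_cases hm) _)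

theorem bilo_ : S_BILO := by
  intro p hp hp2 a b c ha hb hc
  obtain ⟨t, m, hm, rfl⟩ := rep (p := p) ha
  obtain ⟨s, e, he, rfl⟩ := rep (p := p) hb
  obtain ⟨s', e', he', rfl⟩ := rep (p := p) hc
  have hee : ¬ (p : ℤ) ∣ e * e' := by
    intro h
    rcases (Nat.prime_iff_prime_int.mp hp.out).dvd_or_dvd h with h | h
    · exact he h
    · exact he' h
  have h1 : (p : ℤ) ^ s * e * ((p : ℤ) ^ s' * e') = (p : ℤ) ^ (s + s') * (e * e') := by ring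
  rw [h1, case_gen hp2 hm hee, case_gen hp2 hm he, case_gen hp2 hm he']
  have h2 : sg p t m (s + s') (e * e') = sg p t m s e * sg p t m s' e' := by
    unfold sg
    rw [legendreSym.mul]
    ring
  rw [h2]
  rcases sg_pm hm he t s with h | h <;> rcases sg_pm hm he' t s' with h' | h' <;>
    rw [h, h'] <;> norm_num

end Pool.Agent.W215.HB
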